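import Mathlib

/-! Ranks in a finite set; a pair of middle rank in its row and in its column. -/

set_option autoImplicit false

namespace Pool.Agent.Run7.h739.HD

open Finset

variable {α : Type*} [DecidableEq α]

/-- at most `e` elements have fewer than `e` smaller elements -/
theorem few_low (A : Finset α) (g : α → ℝ) (hg : Set.InjOn g A) (e : ℕ) :
    #{a ∈ A | #{b ∈ A | g b < g a} < e} ≤ e := by
  have h : #{a ∈ A | #{b ∈ A | g b < g a} < e} ≤ #(range e) := by
    apply card_le_card_of_injOn (fun a => #{b ∈ A | g b < g a})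
    · intro a ha
      rw [mem_coe, mem_filter] at ha
      rw [mem_coe, mem_range]
      exact ha.2
    · intro a ha b hb hab
      rw [mem_coe, mem_filter] at ha hb
      dsimp only at hab
      by_contra hne
      have key : ∀ x ∈ A, ∀ y ∈ A, g x < g y → #{b ∈ A | g b < g x} < #{b ∈ A | g b < g y} := by
        intro x hx y hy hxy
        apply card_lt_card
        refine ⟨?_, ?_⟩
        · intro z hz
          rw [mem_filter] at hz ⊢
          exact ⟨hz.1, hz.2.trans hxy⟩
        · intro hsub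
          have h1 : x ∈ A.filter (fun b => g b < g y) := mem_filter.mpr ⟨hx, hxy⟩
          have h2 := hsub h1
          rw [mem_filter] at h2
          exact lt_irrefl _ h2.2
      rcases lt_trichotomy (g a) (g b) with h1 | h1 | h1
      · exact absurd hab (key a ha.1 b hb.1 h1).ne
      · exact hne (hg ha.1 hb.1 h1)
      · exact absurd hab (key b hb.1 a ha.1 h1).ne'
  simpa using h

/-- at most `e` elements have fewer than `e` larger elements -/
theorem few_high (A : Finset α) (g : α → ℝ) (hg : Set.InjOn g A) (e : ℕ) :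
    #{a ∈ A | #{b ∈ A | g a < g b} < e} ≤ e := by
  have h := few_low A (fun a => - g a) (fun a ha b hb hab => hg ha hb (neg_injective hab)) e
  simpa only [neg_lt_neg_iff] using h

/-- rows and columns -/
theorem card_rows (A C : Finset α) (B : α → α → Prop) [∀ a c, Decidable (B a c)] (e : ℕ)
    (h : ∀ c ∈ C, #{a ∈ A | B a c} ≤ e) :
    #{z ∈ A ×ˢ C | B z.1 z.2} ≤ e * #C := by
  have h1 : ({z ∈ A ×ˢ C | B z.1 z.2} : Finset (α × α)) ⊆
      C.biUnion (fun c => ({a ∈ A | B a c} : Finset α).image (fun a => (a, c))) := by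
    rintro ⟨a, c⟩ hz
    rw [mem_filter, mem_product] at hz
    rw [mem_biUnion]
    exact ⟨c, hz.1.2, mem_image.mpr ⟨a, mem_filter.mpr ⟨hz.1.1, hz.2⟩, rfl⟩⟩
  refine (card_le_card h1).trans (card_biUnion_le.trans ?_)
  refine (sum_le_card_nsmul _ _ e (fun c hc => (card_image_le).trans (h c hc))).trans ?_
  rw [smul_eq_mul, mul_comm]

/-- columns -/
theorem card_cols (A C : Finset α) (B : α → α → Prop) [∀ a c, Decidable (B a c)] (e : ℕ)
    (h : ∀ a ∈ A, #{c ∈ C | B a c} ≤ e) :
    #{z ∈ A ×ˢ C | B z.1 z.2} ≤ e * #A := by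
  have h1 : ({z ∈ A ×ˢ C | B z.1 z.2} : Finset (α × α)) ⊆
      A.biUnion (fun a => ({c ∈ C | B a c} : Finset α).image (fun c => (a, c))) := by
    rintro ⟨a, c⟩ hz
    rw [mem_filter, mem_product] at hz
    rw [mem_biUnion]
    exact ⟨a, hz.1.1, mem_image.mpr ⟨c, mem_filter.mpr ⟨hz.1.2, hz.2⟩, rfl⟩⟩
  refine (card_le_card h1).trans (card_biUnion_le.trans ?_)
  refine (sum_le_card_nsmul _ _ e (fun c hc => (card_image_le).trans (h c hc))).trans ?_
  rw [smul_eq_mul, mul_comm]

/-- In a matrix whose rows and columns have distinct entries some entry is in the middle of its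
row and of its column. -/
theorem exists_middle (A C : Finset α) (f : α → α → ℝ) {k e : ℕ} (hA : #A = k) (hC : #C = k)
    (he : 4 * e < k) (h1 : ∀ c ∈ C, Set.InjOn (fun a => f a c) A)
    (h2 : ∀ a ∈ A, Set.InjOn (fun c => f a c) C) :
    ∃ a ∈ A, ∃ c ∈ C, e ≤ #{b ∈ A | f b c < f a c} ∧ e ≤ #{b ∈ A | f a c < f b c} ∧
      e ≤ #{d ∈ C | f a d < f a c} ∧ e ≤ #{d ∈ C | f a c < f a d} := by
  classical
  by_contra hcon
  push Not at hcon
  have hcov : A ×ˢ C ⊆
      (({z ∈ A ×ˢ C | #{b ∈ A | f b z.2 < f z.1 z.2} < e} : Finset (α × α)) ∪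
      ({z ∈ A ×ˢ C | #{b ∈ A | f z.1 z.2 < f b z.2} < e} : Finset (α × α))) ∪
      (({z ∈ A ×ˢ C | #{d ∈ C | f z.1 d < f z.1 z.2} < e} : Finset (α × α)) ∪
      ({z ∈ A ×ˢ C | #{d ∈ C | f z.1 z.2 < f z.1 d} < e} : Finset (α × α))) := by
    rintro ⟨a, c⟩ hz
    have hz' := mem_product.mp hz
    simp only [mem_union, mem_filter]
    by_cases a1 : #{b ∈ A | f b c < f a c} < e
    · exact Or.inl (Or.inl ⟨hz, a1⟩)
    by_cases a2 : #{b ∈ A | f a c < f b c} < e
    · exact Or.inl (Or.inr ⟨hz, a2⟩)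
    by_cases a3 : #{d ∈ C | f a d < f a c} < e
    · exact Or.inr (Or.inl ⟨hz, a3⟩)
    · exact Or.inr (Or.inr ⟨hz, hcon a hz'.1 c hz'.2 (not_lt.mp a1) (not_lt.mp a2)
        (not_lt.mp a3)⟩)
  have b1 := card_rows A C (fun a c => #{b ∈ A | f b c < f a c} < e) e
    (fun c hc => few_low A (fun a => f a c) (h1 c hc) e)
  have b2 := card_rows A C (fun a c => #{b ∈ A | f a c < f b c} < e) e
    (fun c hc => few_high A (fun a => f a c) (h1 c hc) e)
  have b3 := card_cols A C (fun a c => #{d ∈ C | f a d < f a c} < e) e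
    (fun a ha => few_low C (fun c => f a c) (h2 a ha) e)
  have b4 := card_cols A C (fun a c => #{d ∈ C | f a c < f a d} < e) e
    (fun a ha => few_high C (fun c => f a c) (h2 a ha) e)
  have h3 := (card_le_card hcov).trans ((card_union_le _ _).trans
    (add_le_add (card_union_le _ _) (card_union_le _ _)))
  rw [card_product, hA, hC] at h3
  rw [hC] at b1 b2
  rw [hA] at b3 b4
  have h4 : k * k ≤ (4 * e) * k := by
    refine h3.trans ?_
    calc _ ≤ (e * k + e * k) + (e * k + e * k) := add_le_add (add_le_add b1 b2) (add_le_add b3 b4)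
      _ = _ := by ring
  have hk : 0 < k := by omega
  have := Nat.le_of_mul_le_mul_right h4 hk
  omega

end Pool.Agent.Run7.h739.HD
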