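import Pool.Agent.Y344.KD.Lines
import Pool.Agent.Run7.h739.HD.Rank

/-! Three large clusters of a planar point set such that every line through two of the points has
one of the clusters on one side. -/

set_option autoImplicit false

namespace Pool.Agent.Run7.h739.HD

open Finset Pool.Agent.H189R2.Lev Pool.Agent.H189R2.Iid Pool.Agent.Y344.KD

variable {n : ℕ} {P : Fin n → ℝ × ℝ}

/-- vertical height of the point `l` over the line of the pair `q` -/
noncomputable def dd (P : Fin n → ℝ × ℝ) (q : Fin n × Fin n) (l : Fin n) : ℝ :=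
  (P l).1 * X2 (P q.1) (P q.2) + (P l).2 - Y2 (P q.1) (P q.2)

theorem mem_lowSet {q : Fin n × Fin n} {l : Fin n} : l ∈ lowSet P q ↔ dd P q l < 0 := by
  classical
  unfold lowSet dd low
  rw [mem_filter]
  simp only [mem_univ, true_and, Set.mem_ofPred_eq, sub_neg]

/-- no line separates three points in the wrong way -/
theorem affine3 {q q0 : Fin n × Fin n} {u v w : Fin n} (huv : (P u).1 < (P v).1)
    (hvw : (P v).1 < (P w).1) (hu : 0 < dd P q u - dd P q0 u) (hv : dd P q v - dd P q0 v < 0)
    (hw : 0 < dd P q w - dd P q0 w) : False := by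
  set c := X2 (P q.1) (P q.2) - X2 (P q0.1) (P q0.2) with hc
  have e1 : dd P q v - dd P q0 v = dd P q u - dd P q0 u + c * ((P v).1 - (P u).1) := by
    unfold dd; rw [hc]; ring
  have e2 : dd P q w - dd P q0 w = dd P q v - dd P q0 v + c * ((P w).1 - (P v).1) := by
    unfold dd; rw [hc]; ring
  have h1 : c * ((P v).1 - (P u).1) < 0 := by linarith
  have h2 : 0 < c * ((P w).1 - (P v).1) := by linarith
  have h3 : c < 0 := by
    by_contra h
    push Not at h
    have := mul_nonneg h (sub_nonneg.mpr huv.le)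
    linarith
  have h4 : 0 < c := by
    by_contra h
    push Not at h
    have := mul_nonpos_of_nonpos_of_nonneg h (sub_nonneg.mpr hvw.le)
    linarith
  linarith

theorem affine3' {q q0 : Fin n × Fin n} {u v w : Fin n} (huv : (P u).1 < (P v).1)
    (hvw : (P v).1 < (P w).1) (hu : dd P q u - dd P q0 u < 0) (hv : 0 < dd P q v - dd P q0 v)
    (hw : dd P q w - dd P q0 w < 0) : False :=
  affine3 (q := q0) (q0 := q) huv hvw (by linarith) (by linarith) (by linarith)

/-- points left of both points of the pair -/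
theorem dd_left {c a a' : Fin n} (h : (P a').1 < (P c).1) :
    dd P (c, a) a' = ((P c).1 - (P a').1) * (X2 (P c) (P a') - X2 (P c) (P a)) := by
  have h0 : (P c).1 - (P a').1 ≠ 0 := by linarith
  have h1 : ((P c).1 - (P a').1) * X2 (P c) (P a') = (P a').2 - (P c).2 := by
    unfold X2; field_simp
  unfold dd Y2
  dsimp only
  linear_combination -h1

theorem dd_right {c a c' : Fin n} (h : (P a).1 < (P c).1) (h' : (P a).1 < (P c').1) :
    dd P (c, a) c' = ((P c').1 - (P a).1) * (X2 (P c) (P a) - X2 (P c') (P a)) := by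
  have h0 : (P c).1 - (P a).1 ≠ 0 := by linarith
  have h0' : (P c').1 - (P a).1 ≠ 0 := by linarith
  have h1 : ((P c).1 - (P a).1) * X2 (P c) (P a) = (P a).2 - (P c).2 := by
    unfold X2; field_simp
  have h2 : ((P c').1 - (P a).1) * X2 (P c') (P a) = (P a).2 - (P c').2 := by
    unfold X2; field_simp
  unfold dd Y2
  dsimp only
  linear_combination h2 - h1

/-- a cluster lies on one side of the line of `q` -/
def OneSide (P : Fin n → ℝ × ℝ) (q : Fin n × Fin n) (S : Finset (Fin n)) : Prop :=
  S ⊆ lowSet P q ∨ Disjoint S (lowSet P q)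

theorem OneSide.mono {q : Fin n × Fin n} {S S' : Finset (Fin n)} (h : OneSide P q S)
    (hS : S' ⊆ S) : OneSide P q S' := by
  rcases h with h | h
  · exact Or.inl (hS.trans h)
  · exact Or.inr (Finset.disjoint_of_subset_left hS h)

theorem exists_list (hP : GP P) (X : Finset (Fin n)) :
    ∃ g : Fin #X → Fin n, (∀ i, g i ∈ X) ∧ ∀ i j, i < j → (P (g i)).1 < (P (g j)).1 := by
  classical
  set Y := X.image (fun l => (P l).1) with hY
  have hc : #Y = #X := card_image_of_injective _ (fun i j h => hP.1 i j h)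
  have h : ∀ i : Fin #X, ∃ l ∈ X, (P l).1 = Y.orderEmbOfFin hc i := by
    intro i
    obtain ⟨l, hl, hl2⟩ := mem_image.mp (Y.orderEmbOfFin_mem hc i)
    exact ⟨l, hl, hl2⟩
  choose g h1 h2 using h
  refine ⟨g, h1, fun i j hij => ?_⟩
  rw [h2, h2]
  exact (Y.orderEmbOfFin hc).strictMono hij

/-- block of indices in the order of the abscissae -/
noncomputable def blk {m : ℕ} (g : Fin m → Fin n) (k i : ℕ) (h : i + k ≤ m) : Finset (Fin n) :=
  univ.image (fun j : Fin k => g ⟨i + j, by omega⟩)

theorem blk_sub {X : Finset (Fin n)} {g : Fin #X → Fin n} (hg : ∀ i, g i ∈ X) (k i : ℕ)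
    (h : i + k ≤ #X) : blk g k i h ⊆ X := by
  intro x hx
  unfold blk at hx
  obtain ⟨j, -, rfl⟩ := mem_image.mp hx
  exact hg _

theorem card_blk {m : ℕ} {g : Fin m → Fin n} (hg : ∀ i j, i < j → (P (g i)).1 < (P (g j)).1)
    (k i : ℕ) (h : i + k ≤ m) : #(blk g k i h) = k := by
  unfold blk
  rw [card_image_of_injective]
  · simp
  · intro x y hxy
    dsimp only at hxy
    rcases lt_trichotomy (x : ℕ) y with h1 | h1 | h1
    · have := hg ⟨i + x, by omega⟩ ⟨i + y, by omega⟩ (by rw [Fin.mk_lt_mk]; omega)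
      rw [hxy] at this
      exact absurd this (lt_irrefl _)
    · exact Fin.ext h1
    · have := hg ⟨i + y, by omega⟩ ⟨i + x, by omega⟩ (by rw [Fin.mk_lt_mk]; omega)
      rw [hxy] at this
      exact absurd this (lt_irrefl _)

theorem blk_lt {m : ℕ} {g : Fin m → Fin n} (hg : ∀ i j, i < j → (P (g i)).1 < (P (g j)).1)
    {k i i' : ℕ} {h : i + k ≤ m} {h' : i' + k ≤ m} (hii : i + k ≤ i')
    {u v : Fin n} (hu : u ∈ blk g k i h) (hv : v ∈ blk g k i' h') : (P u).1 < (P v).1 := by
  unfold blk at hu hv
  rw [mem_image] at hu hv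
  obtain ⟨x, -, rfl⟩ := hu
  obtain ⟨y, -, rfl⟩ := hv
  have hx := x.2
  exact hg _ _ (by rw [Fin.mk_lt_mk]; omega)

theorem disj3 {X Y Z : Finset (Fin n)} (h1 : Disjoint X Y) (h2 : Disjoint X Z)
    (h3 : Disjoint Y Z) (c c' : Fin 3) (hcc : c ≠ c') :
    Disjoint ((![X, Y, Z] : Fin 3 → Finset (Fin n)) c) ((![X, Y, Z] : Fin 3 → Finset (Fin n)) c') := by
  fin_cases c <;> fin_cases c'
  · exact absurd rfl hcc
  · exact h1
  · exact h2
  · exact h1.symm
  · exact absurd rfl hcc
  · exact h3
  · exact h2.symm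
  · exact h3.symm
  · exact absurd rfl hcc

/-- **Three clusters.** -/
theorem exists_clusters (hP : GP P) (X : Finset (Fin n)) {k e : ℕ} (hk : 3 * k ≤ #X)
    (he : 4 * e < k) :
    ∃ Q : Fin 3 → Finset (Fin n), (∀ c, Q c ⊆ X) ∧ (∀ c, e ≤ #(Q c)) ∧
      (∀ c c', c ≠ c' → Disjoint (Q c) (Q c')) ∧ ∀ q ∈ T P, ∃ c, OneSide P q (Q c) := by
  classical
  obtain ⟨g, hgX, hg⟩ := exists_list hP X
  set A := blk g k 0 (by omega) with hA
  set B := blk g k k (by omega) with hB
  set C := blk g k (2 * k) (by omega) with hC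
  have cA : #A = k := card_blk hg _ _ _
  have cB : #B = k := card_blk hg _ _ _
  have cC : #C = k := card_blk hg _ _ _
  have xA : A ⊆ X := blk_sub hgX _ _ _
  have xB : B ⊆ X := blk_sub hgX _ _ _
  have xC : C ⊆ X := blk_sub hgX _ _ _
  have hAB : ∀ a ∈ A, ∀ b ∈ B, (P a).1 < (P b).1 := fun a ha b hb => blk_lt hg (by omega) ha hb
  have hBC : ∀ b ∈ B, ∀ c ∈ C, (P b).1 < (P c).1 := fun b hb c hc => blk_lt hg (by omega) hb hc
  have hAC : ∀ a ∈ A, ∀ c ∈ C, (P a).1 < (P c).1 := fun a ha c hc => blk_lt hg (by omega) ha hc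
  have dAB : Disjoint A B := by
    rw [Finset.disjoint_left]
    intro x hx hx'
    exact lt_irrefl _ (hAB x hx x hx')
  have dBC : Disjoint B C := by
    rw [Finset.disjoint_left]
    intro x hx hx'
    exact lt_irrefl _ (hBC x hx x hx')
  have dAC : Disjoint A C := by
    rw [Finset.disjoint_left]
    intro x hx hx'
    exact lt_irrefl _ (hAC x hx x hx')
  set f : Fin n → Fin n → ℝ := fun a c => X2 (P c) (P a) with hf
  have i1 : ∀ c ∈ C, Set.InjOn (fun a => f a c) A := by
    intro c hc a ha a' ha' h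
    exact (hP.2 c a c a' (hAC a ha c hc) (hAC a' ha' c hc) h).2
  have i2 : ∀ a ∈ A, Set.InjOn (fun c => f a c) C := by
    intro a ha c hc c' hc' h
    exact (hP.2 c a c' a (hAC a ha c hc) (hAC a ha c' hc') h).1
  obtain ⟨a0, ha0, c0, hc0, m1, m2, m3, m4⟩ := exists_middle A C f cA cC he i1 i2
  have hac := hAC a0 ha0 c0 hc0
  set q0 : Fin n × Fin n := (c0, a0) with hq0
  have left : ∀ a ∈ A, dd P q0 a = ((P c0).1 - (P a).1) * (f a c0 - f a0 c0) := fun a ha =>
    dd_left (hAC a ha c0 hc0)
  have right : ∀ c ∈ C, dd P q0 c = ((P c).1 - (P a0).1) * (f a0 c0 - f a0 c) := fun c hc =>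
    dd_right hac (hAC a0 ha0 c hc)
  have hBne : ∀ b ∈ B, dd P q0 b ≠ 0 := by
    intro b hb h
    have h1 : dd P (c0, a0) b = ((P c0).1 - (P b).1) * (X2 (P c0) (P b) - X2 (P c0) (P a0)) :=
      dd_left (hBC b hb c0 hc0)
    rw [h] at h1
    rcases mul_eq_zero.mp h1.symm with h2 | h2
    · have := hBC b hb c0 hc0
      linarith
    · have := (hP.2 c0 b c0 a0 (hBC b hb c0 hc0) hac (sub_eq_zero.mp h2)).2
      rw [this] at hb
      exact lt_irrefl _ (hAB a0 ha0 a0 hb)
  have hsplit : #{b ∈ B | dd P q0 b < 0} + #{b ∈ B | 0 < dd P q0 b} = k := by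
    have h1 := card_filter_add_card_filter_not (s := B) (fun b => dd P q0 b < 0)
    have h2 : B.filter (fun b => ¬ dd P q0 b < 0) = B.filter (fun b => 0 < dd P q0 b) := by
      apply filter_congr
      intro b hb
      rw [not_lt]
      exact ⟨fun h => lt_of_le_of_ne h (Ne.symm (hBne b hb)), le_of_lt⟩
    rw [h2, cB] at h1
    exact h1
  by_cases hcase : e ≤ #{b ∈ B | 0 < dd P q0 b}
  · -- the middle cluster above, the outer clusters below
    refine ⟨![{a ∈ A | f a c0 < f a0 c0}, {b ∈ B | 0 < dd P q0 b}, {c ∈ C | f a0 c0 < f a0 c}],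
      ?_, ?_, ?_, ?_⟩
    · intro c
      fin_cases c
      · exact (filter_subset _ _).trans xA
      · exact (filter_subset _ _).trans xB
      · exact (filter_subset _ _).trans xC
    · intro c
      fin_cases c
      · exact m1
      · exact hcase
      · exact m4
    · have d1 := Finset.disjoint_of_subset_left (filter_subset (fun a => f a c0 < f a0 c0) A)
        (Finset.disjoint_of_subset_right (filter_subset (fun b => 0 < dd P q0 b) B) dAB)
      have d2 := Finset.disjoint_of_subset_left (filter_subset (fun a => f a c0 < f a0 c0) A)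
        (Finset.disjoint_of_subset_right (filter_subset (fun c => f a0 c0 < f a0 c) C) dAC)
      have d3 := Finset.disjoint_of_subset_left (filter_subset (fun b => 0 < dd P q0 b) B)
        (Finset.disjoint_of_subset_right (filter_subset (fun c => f a0 c0 < f a0 c) C) dBC)
      intro c c' hcc
      exact disj3 d1 d2 d3 c c' hcc
    · intro q hq
      by_contra hcon
      push Not at hcon
      have n1 := hcon 0
      have n2 := hcon 1
      have n3 := hcon 2
      unfold OneSide at n1 n2 n3
      push Not at n1 n2 n3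
      obtain ⟨u, hu, hu'⟩ := Finset.not_subset.mp n1.1
      obtain ⟨w, hw, hw'⟩ := Finset.not_subset.mp n3.1
      obtain ⟨v, hv, hv'⟩ := Finset.not_disjoint_iff.mp n2.2
      have hu2 := mem_filter.mp (show u ∈ A.filter (fun a => f a c0 < f a0 c0) from hu)
      have hv2 := mem_filter.mp (show v ∈ B.filter (fun b => 0 < dd P q0 b) from hv)
      have hw2 := mem_filter.mp (show w ∈ C.filter (fun c => f a0 c0 < f a0 c) from hw)
      rw [mem_lowSet, not_lt] at hu' hw'
      rw [mem_lowSet] at hv'
      have eu : dd P q0 u < 0 := by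
        rw [left u hu2.1]
        exact mul_neg_of_pos_of_neg (by have := hAC u hu2.1 c0 hc0; linarith)
          (by linarith [hu2.2])
      have ew : dd P q0 w < 0 := by
        rw [right w hw2.1]
        exact mul_neg_of_pos_of_neg (by have := hAC a0 ha0 w hw2.1; linarith)
          (by linarith [hw2.2])
      exact affine3 (q := q) (q0 := q0) (hAB u hu2.1 v hv2.1) (hBC v hv2.1 w hw2.1)
        (by linarith) (by linarith [hv2.2]) (by linarith)
  · -- the middle cluster below, the outer clusters above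
    have hcase' : e ≤ #{b ∈ B | dd P q0 b < 0} := by omega
    refine ⟨![{a ∈ A | f a0 c0 < f a c0}, {b ∈ B | dd P q0 b < 0}, {c ∈ C | f a0 c < f a0 c0}],
      ?_, ?_, ?_, ?_⟩
    · intro c
      fin_cases c
      · exact (filter_subset _ _).trans xA
      · exact (filter_subset _ _).trans xB
      · exact (filter_subset _ _).trans xC
    · intro c
      fin_cases c
      · exact m2
      · exact hcase'
      · exact m3
    · have d1 := Finset.disjoint_of_subset_left (filter_subset (fun a => f a0 c0 < f a c0) A)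
        (Finset.disjoint_of_subset_right (filter_subset (fun b => dd P q0 b < 0) B) dAB)
      have d2 := Finset.disjoint_of_subset_left (filter_subset (fun a => f a0 c0 < f a c0) A)
        (Finset.disjoint_of_subset_right (filter_subset (fun c => f a0 c < f a0 c0) C) dAC)
      have d3 := Finset.disjoint_of_subset_left (filter_subset (fun b => dd P q0 b < 0) B)
        (Finset.disjoint_of_subset_right (filter_subset (fun c => f a0 c < f a0 c0) C) dBC)
      intro c c' hcc
      exact disj3 d1 d2 d3 c c' hcc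
    · intro q hq
      by_contra hcon
      push Not at hcon
      have n1 := hcon 0
      have n2 := hcon 1
      have n3 := hcon 2
      unfold OneSide at n1 n2 n3
      push Not at n1 n2 n3
      obtain ⟨u, hu, hu'⟩ := Finset.not_disjoint_iff.mp n1.2
      obtain ⟨w, hw, hw'⟩ := Finset.not_disjoint_iff.mp n3.2
      obtain ⟨v, hv, hv'⟩ := Finset.not_subset.mp n2.1
      have hu2 := mem_filter.mp (show u ∈ A.filter (fun a => f a0 c0 < f a c0) from hu)
      have hv2 := mem_filter.mp (show v ∈ B.filter (fun b => dd P q0 b < 0) from hv)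
      have hw2 := mem_filter.mp (show w ∈ C.filter (fun c => f a0 c < f a0 c0) from hw)
      rw [mem_lowSet] at hu' hw'
      rw [mem_lowSet, not_lt] at hv'
      have eu : 0 < dd P q0 u := by
        rw [left u hu2.1]
        exact mul_pos (by have := hAC u hu2.1 c0 hc0; linarith) (by linarith [hu2.2])
      have ew : 0 < dd P q0 w := by
        rw [right w hw2.1]
        exact mul_pos (by have := hAC a0 ha0 w hw2.1; linarith) (by linarith [hw2.2])
      exact affine3' (q := q) (q0 := q0) (hAB u hu2.1 v hv2.1) (hBC v hv2.1 w hw2.1)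
        (by linarith) (by linarith [hv2.2]) (by linarith)

end Pool.Agent.Run7.h739.HD
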