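import Pool.Agent.Run7.h739.HD.Cluster

/-! Deleting points from three clusters: the number of choices for which a given pair becomes a
halving pair. -/

set_option autoImplicit false

namespace Pool.Agent.Run7.h739.HD

open Finset Pool.Agent.H189R2.Lev Pool.Agent.H189R2.Iid Pool.Agent.Y344.KD

variable {n : ℕ} {P : Fin n → ℝ × ℝ}

/-- the deleted points -/
def DD (D0 : Finset (Fin n)) (S : Fin 3 → ℕ → Finset (Fin n)) (t : Fin 3 → ℕ) : Finset (Fin n) :=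
  D0 ∪ univ.biUnion (fun c => S c (t c))

theorem inter_DD {D0 : Finset (Fin n)} {S : Fin 3 → ℕ → Finset (Fin n)}
    {Q : Fin 3 → Finset (Fin n)} (hS : ∀ c x, S c x ⊆ Q c)
    (hQ : ∀ c c', c ≠ c' → Disjoint (Q c) (Q c')) (h0 : ∀ c, Disjoint D0 (Q c)) (L : Finset (Fin n))
    (t : Fin 3 → ℕ) : #(L ∩ DD D0 S t) = #(L ∩ D0) + ∑ c, #(L ∩ S c (t c)) := by
  unfold DD
  rw [inter_union_distrib_left, card_union_of_disjoint, inter_biUnion, card_biUnion]
  · intro c _ c' _ hcc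
    exact Finset.disjoint_of_subset_left (inter_subset_right.trans (hS c _))
      (Finset.disjoint_of_subset_right (inter_subset_right.trans (hS c' _)) (hQ c c' hcc))
  · rw [Finset.disjoint_left]
    intro x hx hx'
    rw [mem_inter] at hx hx'
    rw [mem_biUnion] at hx'
    obtain ⟨c, -, hc⟩ := hx'.2
    exact Finset.disjoint_left.mp (h0 c) hx.2 (hS c _ hc)

theorem card_DD {D0 : Finset (Fin n)} {S : Fin 3 → ℕ → Finset (Fin n)}
    {Q : Fin 3 → Finset (Fin n)} (hS : ∀ c x, S c x ⊆ Q c)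
    (hQ : ∀ c c', c ≠ c' → Disjoint (Q c) (Q c')) (h0 : ∀ c, Disjoint D0 (Q c)) {s : ℕ}
    (hS2 : ∀ c, ∀ x ≤ s, #(S c x) = 2 * x) {t : Fin 3 → ℕ} (ht : ∀ c, t c ≤ s) :
    #(DD D0 S t) = #D0 + 2 * ∑ c, t c := by
  have h := inter_DD hS hQ h0 univ t
  simp only [univ_inter] at h
  rw [h, mul_sum]
  congr 1
  exact sum_congr rfl (fun c _ => hS2 c _ (ht c))

theorem ar1 {lev z1 z2 a0 x1 x2 R n d0 t1 t2 U N : ℕ} (h1 : z1 + (a0 + (x1 + R)) = lev)
    (h2 : z2 + (a0 + (x2 + R)) = lev) (e1 : z1 = (n - (d0 + 2 * (t1 + U))) / 2 - 1)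
    (e2 : z2 = (n - (d0 + 2 * (t2 + U))) / 2 - 1) (hn : n = 2 * N + d0) (b1 : t1 + U + 1 ≤ N)
    (b2 : t2 + U + 1 ≤ N) (h : (x1 = 2 * t1 ∧ x2 = 2 * t2) ∨ (x1 = 0 ∧ x2 = 0)) : t1 = t2 := by
  subst hn
  have f1 : (2 * N + d0 - (d0 + 2 * (t1 + U))) / 2 = N - (t1 + U) := by omega
  have f2 : (2 * N + d0 - (d0 + 2 * (t2 + U))) / 2 = N - (t2 + U) := by omega
  rw [f1] at e1
  rw [f2] at e2
  omega

/-- the condition that `q` is a halving pair after the deletion -/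
def Sol (P : Fin n → ℝ × ℝ) (D0 : Finset (Fin n)) (S : Fin 3 → ℕ → Finset (Fin n))
    (q : Fin n × Fin n) (t : Fin 3 → ℕ) : Prop :=
  #(lowSet P q \ DD D0 S t) = (n - #(DD D0 S t)) / 2 - 1

theorem sol_unique {D0 : Finset (Fin n)} {S : Fin 3 → ℕ → Finset (Fin n)}
    {Q : Fin 3 → Finset (Fin n)} (hS : ∀ c x, S c x ⊆ Q c)
    (hQ : ∀ c c', c ≠ c' → Disjoint (Q c) (Q c')) (h0 : ∀ c, Disjoint D0 (Q c)) {s N : ℕ}
    (hS2 : ∀ c, ∀ x ≤ s, #(S c x) = 2 * x) (hn : n = 2 * N + #D0) (hN : 3 * s + 1 ≤ N)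
    {q : Fin n × Fin n} {c : Fin 3} (hc : OneSide P q (Q c)) {t t' : Fin 3 → ℕ}
    (ht : ∀ c, t c ≤ s) (ht' : ∀ c, t' c ≤ s) (h1 : Sol P D0 S q t) (h2 : Sol P D0 S q t')
    (he : ∀ c', c' ≠ c → t c' = t' c') : t c = t' c := by
  have c1 := card_DD hS hQ h0 hS2 ht
  have c2 := card_DD hS hQ h0 hS2 ht'
  have i1 := inter_DD hS hQ h0 (lowSet P q) t
  have i2 := inter_DD hS hQ h0 (lowSet P q) t'
  have s1 := card_sdiff_add_card_inter (lowSet P q) (DD D0 S t)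
  have s2 := card_sdiff_add_card_inter (lowSet P q) (DD D0 S t')
  unfold Sol at h1 h2
  rw [← add_sum_erase univ _ (mem_univ c)] at c1 c2 i1 i2
  have e1 : ∑ x ∈ univ.erase c, t' x = ∑ x ∈ univ.erase c, t x :=
    sum_congr rfl (fun x hx => (he x (ne_of_mem_erase hx)).symm)
  have e2 : ∑ x ∈ univ.erase c, #(lowSet P q ∩ S x (t' x)) =
      ∑ x ∈ univ.erase c, #(lowSet P q ∩ S x (t x)) :=
    sum_congr rfl (fun x hx => by rw [he x (ne_of_mem_erase hx)])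
  rw [e1] at c2
  rw [e2] at i2
  have hb : ∀ t : Fin 3 → ℕ, (∀ c, t c ≤ s) → t c + ∑ x ∈ univ.erase c, t x ≤ 3 * s := by
    intro t ht
    rw [add_sum_erase univ t (mem_univ c)]
    refine (sum_le_card_nsmul _ _ s (fun x _ => ht x)).trans ?_
    simp
  have b1 := hb t ht
  have b2 := hb t' ht'
  rw [e1] at b2
  rw [i1, h1, c1] at s1
  rw [i2, h2, c2] at s2
  refine ar1 s1 s2 rfl rfl hn (by omega) (by omega) ?_
  rcases hc with hc | hc
  · left
    have hin : ∀ x ≤ s, #(lowSet P q ∩ S c x) = 2 * x := by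
      intro x hx
      rw [inter_eq_right.mpr ((hS c x).trans hc), hS2 c x hx]
    exact ⟨hin _ (ht c), hin _ (ht' c)⟩
  · right
    have hin : ∀ x, #(lowSet P q ∩ S c x) = 0 := by
      intro x
      rw [card_eq_zero, ← disjoint_iff_inter_eq_empty]
      exact (Finset.disjoint_of_subset_left (hS c x) hc).symm
    exact ⟨hin _, hin _⟩

theorem sol_window {D0 : Finset (Fin n)} {S : Fin 3 → ℕ → Finset (Fin n)}
    {Q : Fin 3 → Finset (Fin n)} (hS : ∀ c x, S c x ⊆ Q c)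
    (hQ : ∀ c c', c ≠ c' → Disjoint (Q c) (Q c')) (h0 : ∀ c, Disjoint D0 (Q c)) {s N : ℕ}
    (hS2 : ∀ c, ∀ x ≤ s, #(S c x) = 2 * x) (hn : n = 2 * N + #D0) (hN : 3 * s + 1 ≤ N)
    {q : Fin n × Fin n} {t : Fin 3 → ℕ} (ht : ∀ c, t c ≤ s) (h1 : Sol P D0 S q t) :
    lev P q ∈ Icc (N - 1 - 3 * s) (N - 1 + 3 * s + #D0) := by
  have c1 := card_DD hS hQ h0 hS2 ht
  have i1 := inter_DD hS hQ h0 (lowSet P q) t
  have s1 := card_sdiff_add_card_inter (lowSet P q) (DD D0 S t)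
  unfold Sol at h1
  have b0 : #(lowSet P q ∩ D0) ≤ #D0 := card_le_card inter_subset_right
  have b1 : ∑ c, #(lowSet P q ∩ S c (t c)) ≤ 2 * ∑ c, t c := by
    rw [mul_sum]
    apply sum_le_sum
    intro c _
    rw [← hS2 c _ (ht c)]
    exact card_le_card inter_subset_right
  have b2 : ∑ c, t c ≤ 3 * s := by
    refine (sum_le_card_nsmul _ _ s (fun x _ => ht x)).trans ?_
    simp
  rw [i1, h1, c1] at s1
  rw [lev_eq, mem_Icc, ← s1]
  have f1 : (n - (#D0 + 2 * ∑ c, t c)) / 2 = N - ∑ c, t c := by omega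
  rw [f1]
  omega

open Classical in
theorem sol_card {D0 : Finset (Fin n)} {S : Fin 3 → ℕ → Finset (Fin n)}
    {Q : Fin 3 → Finset (Fin n)} (hS : ∀ c x, S c x ⊆ Q c)
    (hQ : ∀ c c', c ≠ c' → Disjoint (Q c) (Q c')) (h0 : ∀ c, Disjoint D0 (Q c)) {s N : ℕ}
    (hS2 : ∀ c, ∀ x ≤ s, #(S c x) = 2 * x) (hn : n = 2 * N + #D0) (hN : 3 * s + 1 ≤ N)
    {q : Fin n × Fin n} {c : Fin 3} (hc : OneSide P q (Q c)) :
    #{t ∈ Fintype.piFinset (fun _ : Fin 3 => range (s + 1)) | Sol P D0 S q t} ≤ (s + 1) ^ 2 := by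
  have h : #{t ∈ Fintype.piFinset (fun _ : Fin 3 => range (s + 1)) | Sol P D0 S q t} ≤
      #(Fintype.piFinset (Function.update (fun _ : Fin 3 => range (s + 1)) c {0})) := by
    apply card_le_card_of_injOn (fun t => Function.update t c 0)
    · intro t ht
      rw [mem_coe, mem_filter, Fintype.mem_piFinset] at ht
      rw [mem_coe, Fintype.mem_piFinset]
      intro c'
      by_cases hcc : c' = c
      · subst hcc
        simp
      · dsimp only
        rw [Function.update_of_ne hcc, Function.update_of_ne hcc]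
        exact ht.1 c'
    · intro t ht t' ht' h
      rw [mem_coe, mem_filter, Fintype.mem_piFinset] at ht ht'
      dsimp only at h
      have ht1 : ∀ c, t c ≤ s := fun c => Nat.lt_succ_iff.mp (mem_range.mp (ht.1 c))
      have ht2 : ∀ c, t' c ≤ s := fun c => Nat.lt_succ_iff.mp (mem_range.mp (ht'.1 c))
      have he : ∀ c', c' ≠ c → t c' = t' c' := by
        intro c' hcc
        have := congrFun h c'
        rwa [Function.update_of_ne hcc, Function.update_of_ne hcc] at this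
      funext c'
      by_cases hcc : c' = c
      · subst hcc
        exact sol_unique hS hQ h0 hS2 hn hN hc ht1 ht2 ht.2 ht'.2 he
      · exact he c' hcc
  refine h.trans (le_of_eq ?_)
  rw [Fintype.card_piFinset]
  fin_cases c <;> simp [Fin.prod_univ_three, Function.update, pow_two]

/-- **Averaging.** -/
theorem exists_del {D0 : Finset (Fin n)} {S : Fin 3 → ℕ → Finset (Fin n)}
    {Q : Fin 3 → Finset (Fin n)} (hS : ∀ c x, S c x ⊆ Q c)
    (hQ : ∀ c c', c ≠ c' → Disjoint (Q c) (Q c')) (h0 : ∀ c, Disjoint D0 (Q c)) {s N : ℕ}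
    (hS2 : ∀ c, ∀ x ≤ s, #(S c x) = 2 * x) (hn : n = 2 * N + #D0) (hN : 3 * s + 1 ≤ N)
    (hc : ∀ q ∈ T P, ∃ c, OneSide P q (Q c)) :
    ∃ D : Finset (Fin n), (∀ x ∈ D, x ∈ D0 ∨ ∃ c, x ∈ Q c) ∧ #D ≤ #D0 + 6 * s ∧
      (∃ M, 1 ≤ M ∧ n - #D = 2 * M) ∧
      (s + 1) * cnt P ((n - #D) / 2 - 1) D ≤
        #(EW P (Icc (N - 1 - 3 * s) (N - 1 + 3 * s + #D0))) := by
  classical
  set W := Icc (N - 1 - 3 * s) (N - 1 + 3 * s + #D0) with hW
  set Θ := Fintype.piFinset (fun _ : Fin 3 => range (s + 1)) with hΘ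
  have hΘc : #Θ = (s + 1) ^ 3 := by
    rw [hΘ, Fintype.card_piFinset]
    simp
  have hle : ∀ t ∈ Θ, ∀ c, t c ≤ s := by
    intro t ht c
    rw [hΘ, Fintype.mem_piFinset] at ht
    exact Nat.lt_succ_iff.mp (mem_range.mp (ht c))
  have hsum : ∑ t ∈ Θ, cnt P ((n - #(DD D0 S t)) / 2 - 1) (DD D0 S t) ≤
      #(EW P W) * (s + 1) ^ 2 := by
    have e1 : ∑ t ∈ Θ, cnt P ((n - #(DD D0 S t)) / 2 - 1) (DD D0 S t) =
        ∑ t ∈ Θ, ∑ q ∈ T P, if Sol P D0 S q t then 1 else 0 := by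
      apply sum_congr rfl
      intro t _
      unfold cnt
      rw [card_filter]
      apply sum_congr rfl
      intro q _
      by_cases hs : Sol P D0 S q t
      · rw [if_pos hs, if_pos (show #(lowSet P q \ DD D0 S t) = _ from hs)]
      · rw [if_neg hs, if_neg (show ¬ #(lowSet P q \ DD D0 S t) = _ from hs)]
    rw [e1, sum_comm]
    have e2 : ∑ q ∈ T P, ∑ t ∈ Θ, (if Sol P D0 S q t then 1 else 0) =
        ∑ q ∈ EW P W, ∑ t ∈ Θ, (if Sol P D0 S q t then 1 else 0) := by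
      symm
      unfold EW
      apply sum_subset (filter_subset _ _)
      intro q hq hq'
      apply sum_eq_zero
      intro t ht
      rw [if_neg]
      intro hsol
      exact hq' (mem_filter.mpr ⟨hq, sol_window hS hQ h0 hS2 hn hN (hle t ht) hsol⟩)
    rw [e2]
    refine (sum_le_card_nsmul _ _ ((s + 1) ^ 2) ?_).trans (le_of_eq (smul_eq_mul _ _))
    intro q hq
    rw [← card_filter]
    obtain ⟨c, hc'⟩ := hc q (mem_filter.mp hq).1
    exact sol_card hS hQ h0 hS2 hn hN hc'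
  have hex : ∃ t ∈ Θ, (s + 1) * cnt P ((n - #(DD D0 S t)) / 2 - 1) (DD D0 S t) ≤ #(EW P W) := by
    by_contra hcon
    push Not at hcon
    have hne : Θ.Nonempty := by
      rw [← card_pos, hΘc]
      positivity
    have h1 := sum_lt_sum_of_nonempty hne hcon
    rw [sum_const, ← mul_sum, smul_eq_mul, hΘc] at h1
    have h2 : (s + 1) * ∑ t ∈ Θ, cnt P ((n - #(DD D0 S t)) / 2 - 1) (DD D0 S t) ≤
        (s + 1) * (#(EW P W) * (s + 1) ^ 2) := Nat.mul_le_mul_left _ hsum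
    have h3 : (s + 1) * (#(EW P W) * (s + 1) ^ 2) = (s + 1) ^ 3 * #(EW P W) := by ring
    omega
  obtain ⟨t, ht, h⟩ := hex
  have hcd := card_DD hS hQ h0 hS2 (hle t ht)
  have b2 : ∑ c, t c ≤ 3 * s := by
    refine (sum_le_card_nsmul _ _ s (fun x _ => hle t ht x)).trans ?_
    simp
  refine ⟨DD D0 S t, ?_, by omega, ⟨N - ∑ c, t c, by omega, by omega⟩, h⟩
  intro x hx
  unfold DD at hx
  rw [mem_union, mem_biUnion] at hx
  rcases hx with hx | ⟨c, -, hx⟩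
  · exact Or.inl hx
  · exact Or.inr ⟨c, hS c _ hx⟩

end Pool.Agent.Run7.h739.HD
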