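import Pool.Agent.Run7.h739.HD.Transfer

/-! Few bisectors after few deletions. -/

set_option autoImplicit false

namespace Pool.Agent.Run7.h739.HD

open Finset Pool.Agent.Y344.KD

open Pool.Agent.H189R2.Iid (T lev mem_T)
open Pool.Agent.Y429.HalvFew (shr exists_shear)
open Pool.Agent.W296.HL (Line GeneralPosition IsBisector Gen gen_of_gp)

/-- the combinatorial form for a family in strong general position -/
theorem core {n : ℕ} {P : Fin n → ℝ × ℝ} (hP : Pool.Agent.H189R2.Iid.GP P) (X : Finset (Fin n))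
    (hX : 1 ≤ #X) (hn2 : 2 ≤ n) {s : ℕ} (hs : s = 0 ∨ 24 * s + 15 ≤ #X) :
    ∃ D ⊆ X, ∃ W : Finset ℕ, #D ≤ 6 * s + 1 ∧ (∃ M, n - #D = 2 * M) ∧
      (∀ k ∈ W, n ≤ 2 * k + 2 + (6 * s + 1) ∧ 2 * k + 2 ≤ n + (6 * s + 1) ∧ k + 1 ≤ n) ∧
      #W ≤ 6 * (s + 1) ∧ (s + 1) * cnt P ((n - #D) / 2 - 1) D ≤ #(EW P W) := by
  classical
  have hXn : #X ≤ n := (card_le_univ X).trans (le_of_eq (Fintype.card_fin n))
  obtain ⟨D0, hD0X, hD0⟩ := exists_subset_card_eq (s := X) (n := n % 2) (by omega)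
  set N := n / 2 with hN
  have hnN : n = 2 * N + #D0 := by rw [hD0]; omega
  have hd1 : #D0 ≤ 1 := by rw [hD0]; omega
  have hN3 : 3 * s + 1 ≤ N := by omega
  -- clusters
  have hcl : ∃ Q : Fin 3 → Finset (Fin n), (∀ c, Q c ⊆ X) ∧ (∀ c, 2 * s ≤ #(Q c)) ∧
      (∀ c c', c ≠ c' → Disjoint (Q c) (Q c')) ∧ (∀ c, Disjoint D0 (Q c)) ∧
      ∀ q ∈ T P, ∃ c, OneSide P q (Q c) := by
    rcases hs with rfl | hs
    · refine ⟨fun _ => ∅, fun _ => by simp, fun _ => by simp, fun _ _ _ => by simp,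
        fun _ => by simp, ?_⟩
      intro q _
      exact ⟨0, Or.inl (by simp)⟩
    · obtain ⟨Q, h0, h1, h2, h3⟩ := exists_clusters hP X (k := 8 * s + 5) (e := 2 * s + 1)
        (by omega) (by omega)
      refine ⟨fun c => Q c \ D0, fun c => sdiff_subset.trans (h0 c), fun c => ?_,
        fun c c' hcc => ?_, fun c => ?_, fun q hq => ?_⟩
      · show 2 * s ≤ #(Q c \ D0)
        have := le_card_sdiff D0 (Q c)
        have := h1 c
        omega
      · exact Finset.disjoint_of_subset_left sdiff_subset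
          (Finset.disjoint_of_subset_right sdiff_subset (h2 c c' hcc))
      · exact disjoint_sdiff
      · obtain ⟨c, hc⟩ := h3 q hq
        exact ⟨c, hc.mono sdiff_subset⟩
  obtain ⟨Q, q0, q1, q2, q3, q4⟩ := hcl
  have hS : ∀ (c : Fin 3) (x : ℕ), ∃ S ⊆ Q c, x ≤ s → #S = 2 * x := by
    intro c x
    by_cases hx : x ≤ s
    · obtain ⟨S, h1, h2⟩ := exists_subset_card_eq (s := Q c) (n := 2 * x)
        (le_trans (by omega) (q1 c))
      exact ⟨S, h1, fun _ => h2⟩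
    · exact ⟨∅, empty_subset _, fun h => absurd h hx⟩
  choose S s1 s2 using hS
  obtain ⟨D, d0, d1, ⟨M, -, d2⟩, d3⟩ :=
    exists_del (P := P) s1 q2 q3 (fun c x hx => s2 c x hx) hnN hN3 q4
  refine ⟨D, ?_, Icc (N - 1 - 3 * s) (N - 1 + 3 * s + #D0), by omega, ⟨M, d2⟩, ?_, ?_, d3⟩
  · intro x hx
    rcases d0 x hx with h | ⟨c, h⟩
    · exact hD0X h
    · exact q0 c h
  · intro k hk
    rw [mem_Icc] at hk
    omega
  · rw [Nat.card_Icc]
    omega

open scoped Classical in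
/-- **Few bisectors after few deletions.** -/
theorem main {P : Finset (ℝ × ℝ)} (hP : Gen P) {X : Finset (ℝ × ℝ)} (hXP : X ⊆ P) {m : ℕ}
    (hm1 : 1 ≤ m) (hm : m ≤ #X) :
    ∃ R ⊆ P, P \ R ⊆ X ∧ #P ≤ #R + m ∧ Even #R ∧
      m * {L | IsBisector R L}.ncard ≤ 38 * {L | NearBisector P m L}.ncard ∧
      ({L | IsBisector R L}.ncard : ℝ) ≤ 200 * ((#P : ℝ) ^ (4 / 3 : ℝ) / (m : ℝ) ^ (1 / 3 : ℝ)) := by
  by_cases hn2 : 2 ≤ #P
  swap
  · have hXP1 := card_le_card hXP
    have hn1 : #P = 1 := by omega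
    have hXe : X = P := eq_of_subset_of_card_le hXP (by omega)
    refine ⟨∅, empty_subset _, by rw [hXe]; exact sdiff_subset, by omega, by simp, ?_, ?_⟩
    · have : {L | IsBisector ∅ L} = ∅ := by
        ext L
        rw [Set.mem_ofPred_eq]
        constructor
        · rintro ⟨a, b, c, -, -, ⟨p, hp, -⟩, -⟩
          exact absurd hp (notMem_empty p)
        · intro h; exact absurd h (Set.notMem_empty L)
      rw [this]; simp
    · have : {L | IsBisector ∅ L} = ∅ := by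
        ext L
        rw [Set.mem_ofPred_eq]
        constructor
        · rintro ⟨a, b, c, -, -, ⟨p, hp, -⟩, -⟩
          exact absurd hp (notMem_empty p)
        · intro h; exact absurd h (Set.notMem_empty L)
      rw [this, Set.ncard_empty]
      push_cast
      positivity
  obtain ⟨ε, hε⟩ := exists_shear P
  obtain ⟨P', hG⟩ := exists_good hP hε
  set X' : Finset (Fin #P) := univ.filter (fun i => v0 P i ∈ X) with hX'
  have hXim : X'.image (v0 P) = X := by
    ext p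
    rw [mem_image]
    constructor
    · rintro ⟨i, hi, rfl⟩
      exact (mem_filter.mp hi).2
    · intro hp
      obtain ⟨i, rfl⟩ := v0_surj P (hXP hp)
      exact ⟨i, mem_filter.mpr ⟨mem_univ _, hp⟩, rfl⟩
  have hXc : #X' = #X := by rw [← hXim, card_image_of_injective _ (v0_inj P)]
  set s := min ((m - 1) / 6) ((#X' - 15) / 24) with hs
  have hs1 : 6 * s + 1 ≤ m := by
    have : s ≤ (m - 1) / 6 := min_le_left _ _
    omega
  have hs2 : s = 0 ∨ 24 * s + 15 ≤ #X' := by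
    have : s ≤ (#X' - 15) / 24 := min_le_right _ _
    omega
  have hs3 : m ≤ 38 * (s + 1) := by
    rcases min_choice ((m - 1) / 6) ((#X' - 15) / 24) with h | h
    · rw [hs, h]; omega
    · rw [hs, h]; omega
  obtain ⟨D, dX, W, d1, ⟨M, d2⟩, w1, w2, d3⟩ := core hG.1 X' (by omega) hn2 hs2
  have hb := bis_rest hG hε D
  have hnear := near_ge hP hG hε W m (fun k hk => ⟨by have := w1 k hk; omega,
    by have := w1 k hk; omega⟩)
  have hmul : (s + 1) * {L | IsBisector (rest P D) L}.ncard ≤ #(EW P' W) :=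
    (Nat.mul_le_mul_left _ hb).trans d3
  refine ⟨rest P D, rest_sub D, ?_, ?_, ?_, ?_, ?_⟩
  · intro p hp
    rw [mem_sdiff] at hp
    obtain ⟨i, rfl⟩ := v0_surj P hp.1
    by_contra hcon
    apply hp.2
    unfold rest
    refine mem_image_of_mem _ (mem_sdiff.mpr ⟨mem_univ _, fun hi => hcon ?_⟩)
    exact (mem_filter.mp (dX hi)).2
  · rw [card_rest]; omega
  · rw [card_rest, d2]; exact even_two_mul M
  · calc m * {L | IsBisector (rest P D) L}.ncard
        ≤ 38 * (s + 1) * {L | IsBisector (rest P D) L}.ncard := Nat.mul_le_mul_right _ hs3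
      _ = 38 * ((s + 1) * {L | IsBisector (rest P D) L}.ncard) := by ring
      _ ≤ _ := Nat.mul_le_mul_left _ (hmul.trans hnear)
  · have hwin := window hG.1 W (K := #P - 1) (fun k hk => by have := w1 k hk; omega)
    set x : ℝ := ({L | IsBisector (rest P D) L}.ncard : ℝ) with hx
    set n : ℝ := (#P : ℝ) with hn
    have hn0 : (1 : ℝ) ≤ n := by rw [hn]; exact_mod_cast (by omega : 1 ≤ #P)
    have hK : (((#P - 1 : ℕ) : ℝ) + 1) = n := by
      rw [hn, Nat.cast_sub (by omega)]; push_cast; ring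
    rw [hK] at hwin
    set u : ℝ := (s : ℝ) + 1 with hu
    have hu1 : (1 : ℝ) ≤ u := by rw [hu]; have : (0 : ℝ) ≤ s := Nat.cast_nonneg s; linarith
    have hux : u * x ≤ 18 * n * (n ^ (1 / 3 : ℝ) * (6 * u) ^ (2 / 3 : ℝ)) := by
      have h1 : u * x ≤ (#(EW P' W) : ℝ) := by
        rw [hu, hx]
        exact_mod_cast hmul
      have h2 : (#W : ℝ) ^ (2 / 3 : ℝ) ≤ (6 * u) ^ (2 / 3 : ℝ) := by
        apply Real.rpow_le_rpow (Nat.cast_nonneg _) _ (by norm_num)
        rw [hu]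
        exact_mod_cast w2
      refine h1.trans (hwin.trans ?_)
      gcongr
    have hm0 : (0 : ℝ) < m := by exact_mod_cast hm1
    have hmu : (m : ℝ) ≤ 38 * u := by rw [hu]; exact_mod_cast hs3
    -- cubes
    have hx0 : 0 ≤ x := Nat.cast_nonneg _
    have hu0 : 0 < u := by linarith
    have key : x ^ 3 * m ≤ (200 : ℝ) ^ 3 * n ^ 4 := by
      have h3 : (u * x) ^ 3 ≤ (18 * n * (n ^ (1 / 3 : ℝ) * (6 * u) ^ (2 / 3 : ℝ))) ^ 3 :=
        pow_le_pow_left₀ (by positivity) hux 3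
      have h4 : (n ^ (1 / 3 : ℝ)) ^ 3 = n := by
        rw [← Real.rpow_natCast, ← Real.rpow_mul (by linarith)]; norm_num
      have h5 : ((6 * u) ^ (2 / 3 : ℝ)) ^ 3 = (6 * u) ^ 2 := by
        rw [← Real.rpow_natCast ((6 * u) ^ (2 / 3 : ℝ)), ← Real.rpow_mul (by positivity)]; norm_num
      have h6 : u ^ 3 * x ^ 3 ≤ 18 ^ 3 * n ^ 3 * (n * (6 * u) ^ 2) := by
        calc u ^ 3 * x ^ 3 = (u * x) ^ 3 := by ring
          _ ≤ _ := h3
          _ = 18 ^ 3 * n ^ 3 * ((n ^ (1 / 3 : ℝ)) ^ 3 * ((6 * u) ^ (2 / 3 : ℝ)) ^ 3) := by ring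
          _ = _ := by rw [h4, h5]
      have h7 : u * x ^ 3 ≤ 18 ^ 3 * 36 * n ^ 4 := by
        have : u ^ 2 * (u * x ^ 3) ≤ u ^ 2 * (18 ^ 3 * 36 * n ^ 4) := by
          calc u ^ 2 * (u * x ^ 3) = u ^ 3 * x ^ 3 := by ring
            _ ≤ _ := h6
            _ = _ := by ring
        exact le_of_mul_le_mul_left this (by positivity)
      calc x ^ 3 * m ≤ x ^ 3 * (38 * u) := by gcongr
        _ = 38 * (u * x ^ 3) := by ring
        _ ≤ 38 * (18 ^ 3 * 36 * n ^ 4) := by gcongr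
        _ ≤ _ := by
          have : 0 ≤ n ^ 4 := by positivity
          nlinarith
    have hfin : x ≤ 200 * (n ^ (4 / 3 : ℝ) / (m : ℝ) ^ (1 / 3 : ℝ)) := by
      have h8 : (200 * (n ^ (4 / 3 : ℝ) / (m : ℝ) ^ (1 / 3 : ℝ))) ^ 3 = 200 ^ 3 * n ^ 4 / m := by
        have a1 : (n ^ (4 / 3 : ℝ)) ^ 3 = n ^ 4 := by
          rw [← Real.rpow_natCast, ← Real.rpow_mul (by linarith)]
          norm_num
        have a2 : ((m : ℝ) ^ (1 / 3 : ℝ)) ^ 3 = m := by
          rw [← Real.rpow_natCast, ← Real.rpow_mul hm0.le]; norm_num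
        rw [mul_pow, div_pow, a1, a2]; ring
      have h9 : x ^ 3 ≤ (200 * (n ^ (4 / 3 : ℝ) / (m : ℝ) ^ (1 / 3 : ℝ))) ^ 3 := by
        rw [h8, le_div_iff₀ hm0]; exact key
      exact le_of_pow_le_pow_left₀ (by norm_num) (by positivity) h9
    exact hfin

end Pool.Agent.Run7.h739.HD
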