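import Pool.Agent.Run7.h739.HD.Count
import Pool.Agent.Y429.HalvFew
import Pool.Agent.TH124.KE.Lev

/-! From indexed families to finite sets of points and their bisectors. -/

set_option autoImplicit false

namespace Pool.Agent.Run7.h739.HD

open Finset Pool.Agent.Y344.KD

open Pool.Agent.H189R2.Lev (ht)
open Pool.Agent.H189R2.Iid (T low lev mem_T)
open Pool.Agent.Y429.HalvFew (shr shr_inj cr_shr below_iff bis_le gp_shear exists_shear)
open Pool.Agent.TH124.KE (sl hh kes mem_kes bel hh_sl sl_comm)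
open Pool.Agent.W296.HL (Line GeneralPosition IsBisector Gen gen_of_gp)

/-- the points of `P`, listed -/
noncomputable def v0 (P : Finset (ℝ × ℝ)) (i : Fin #P) : ℝ × ℝ := ((P.equivFin.symm i : P) : ℝ × ℝ)

theorem v0_mem (P : Finset (ℝ × ℝ)) (i : Fin #P) : v0 P i ∈ P := (P.equivFin.symm i).2

theorem v0_inj (P : Finset (ℝ × ℝ)) : Function.Injective (v0 P) := by
  intro i j h
  exact P.equivFin.symm.injective (Subtype.ext h)

theorem v0_surj (P : Finset (ℝ × ℝ)) {p : ℝ × ℝ} (hp : p ∈ P) : ∃ i, v0 P i = p :=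
  ⟨P.equivFin ⟨p, hp⟩, by unfold v0; simp⟩

theorem image_v0 (P : Finset (ℝ × ℝ)) : univ.image (v0 P) = P := by
  classical
  ext p
  rw [mem_image]
  constructor
  · rintro ⟨i, -, rfl⟩
    exact v0_mem P i
  · intro hp
    obtain ⟨i, hi⟩ := v0_surj P hp
    exact ⟨i, mem_univ _, hi⟩

/-- the sheared points: abscissae -/
noncomputable def va (P : Finset (ℝ × ℝ)) (ε : ℝ) (i : Fin #P) : ℝ := (shr ε (v0 P i)).1

/-- the sheared points: ordinates -/
noncomputable def vb (P : Finset (ℝ × ℝ)) (ε : ℝ) (i : Fin #P) : ℝ := (shr ε (v0 P i)).2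

variable {P : Finset (ℝ × ℝ)} {ε : ℝ}

theorem va_inj (hε : ∀ x ∈ P, ∀ y ∈ P, (shr ε x).1 = (shr ε y).1 → x = y) :
    Function.Injective (va P ε) := fun i j h => v0_inj P (hε _ (v0_mem P i) _ (v0_mem P j) h)

theorem hh_v (i : Fin #P) (σ : ℝ) : hh σ (shr ε (v0 P i)) = ht (va P ε) (vb P ε) i (-σ) := by
  unfold hh ht va vb
  ring

theorem cr_v (i j : Fin #P) : Pool.Agent.H189R2.Lev.cr (va P ε) (vb P ε) i j =
    - sl (shr ε (v0 P j)) (shr ε (v0 P i)) := by
  rw [sl_comm]
  unfold Pool.Agent.H189R2.Lev.cr sl va vb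
  rw [← neg_sub ((shr ε (v0 P j)).1), div_neg]

theorem simple_v (hP : Gen P) (hε : ∀ x ∈ P, ∀ y ∈ P, (shr ε x).1 = (shr ε y).1 → x = y) :
    Pool.Agent.Results.MP_a08d0a_co.SmoothedLevel.Simple (va P ε) (vb P ε) := by
  have hG := gp_shear hP hε
  refine ⟨fun i j hij h => absurd (va_inj hε h) hij, ?_⟩
  rintro i j l hij hil hjl ⟨x, h1, h2⟩
  have m : ∀ i, shr ε (v0 P i) ∈ P.image (shr ε) := fun i => mem_image_of_mem _ (v0_mem P i)
  have ne : ∀ i j, i ≠ j → shr ε (v0 P i) ≠ shr ε (v0 P j) := fun i j h h' =>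
    h (v0_inj P (shr_inj ε h'))
  have ne1 : ∀ i j, i ≠ j → (shr ε (v0 P i)).1 ≠ (shr ε (v0 P j)).1 := fun i j h h' =>
    h (va_inj hε h')
  have e1 : hh (-x) (shr ε (v0 P j)) = hh (-x) (shr ε (v0 P i)) := by
    rw [hh_v, hh_v, neg_neg]; exact h1.symm
  have e2 : hh (-x) (shr ε (v0 P l)) = hh (-x) (shr ε (v0 P i)) := by
    rw [hh_v, hh_v, neg_neg]; exact h2.symm
  have f1 := (Pool.Agent.TH124.KE.hh_eq (ne1 i j hij) (-x)).mp e1
  have f2 := (Pool.Agent.TH124.KE.hh_eq (ne1 i l hil) (-x)).mp e2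
  exact hG.col _ (m i) _ (m j) _ (m l) (ne i j hij) (ne i l hil) (ne j l hjl) (f1.trans f2.symm)

/-- a family in strong general position with the same points below the connecting lines -/
def Good (P : Finset (ℝ × ℝ)) (ε : ℝ) (P' : Fin #P → ℝ × ℝ) : Prop :=
  Pool.Agent.H189R2.Iid.GP P' ∧ ∀ i j, va P ε j < va P ε i → (P' j).1 < (P' i).1 ∧
    ∀ l, (P' l ∈ low (P' i) (P' j) ↔
      hh (sl (shr ε (v0 P j)) (shr ε (v0 P i))) (shr ε (v0 P l)) <
        hh (sl (shr ε (v0 P j)) (shr ε (v0 P i))) (shr ε (v0 P j)))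

theorem exists_good (hP : Gen P) (hε : ∀ x ∈ P, ∀ y ∈ P, (shr ε x).1 = (shr ε y).1 → x = y) :
    ∃ P', Good P ε P' := by
  obtain ⟨P', h1, h2⟩ := exists_GP (simple_v hP hε)
  refine ⟨P', h1, fun i j hij => ⟨(h2 i j hij).1, fun l => ?_⟩⟩
  rw [(h2 i j hij).2 l]
  have hne : (shr ε (v0 P j)).1 ≠ (shr ε (v0 P i)).1 := ne_of_lt hij
  rw [← hh_sl hne, hh_v, hh_v, cr_v]

theorem good_lt {P' : Fin #P → ℝ × ℝ} (hG : Good P ε P') {i j : Fin #P}
    (hε : ∀ x ∈ P, ∀ y ∈ P, (shr ε x).1 = (shr ε y).1 → x = y) (h : (P' j).1 < (P' i).1) :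
    va P ε j < va P ε i := by
  rcases lt_trichotomy (va P ε j) (va P ε i) with h1 | h1 | h1
  · exact h1
  · rw [va_inj hε h1] at h
    exact absurd h (lt_irrefl _)
  · exact absurd (h.trans (hG.2 j i h1).1) (lt_irrefl _)

/-- the points that are not deleted -/
noncomputable def rest (P : Finset (ℝ × ℝ)) (D : Finset (Fin #P)) : Finset (ℝ × ℝ) :=
  (univ \ D).image (v0 P)

theorem rest_sub (D : Finset (Fin #P)) : rest P D ⊆ P := by
  intro p hp
  unfold rest at hp
  obtain ⟨i, -, rfl⟩ := mem_image.mp hp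
  exact v0_mem P i

theorem card_rest (D : Finset (Fin #P)) : #(rest P D) = #P - #D := by
  unfold rest
  rw [card_image_of_injective _ (v0_inj P), card_sdiff_of_subset (subset_univ _), card_univ,
    Fintype.card_fin]

theorem kes_le {P' : Fin #P → ℝ × ℝ} (hG : Good P ε P') (D : Finset (Fin #P)) (k : ℕ) :
    #(kes ((rest P D).image (shr ε)) k) ≤ cnt P' k D := by
  classical
  unfold cnt
  apply card_le_card_of_surjOn (fun q : Fin #P × Fin #P =>
    (shr ε (v0 P q.2), shr ε (v0 P q.1)))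
  rintro ⟨x, y⟩ he
  rw [mem_coe, mem_kes] at he
  obtain ⟨hx, hy, hlt, hb⟩ := he
  dsimp only at hx hy hlt hb
  unfold rest at hx hy
  rw [image_image] at hx hy
  obtain ⟨j, hj, rfl⟩ := mem_image.mp hx
  obtain ⟨i, hi, rfl⟩ := mem_image.mp hy
  have hij : va P ε j < va P ε i := hlt
  refine ⟨(i, j), ?_, rfl⟩
  rw [mem_coe, mem_filter]
  refine ⟨mem_T.mpr (hG.2 i j hij).1, ?_⟩
  rw [← hb]
  unfold bel rest
  rw [image_image, filter_image, card_image_of_injective _ ((shr_inj ε).comp (v0_inj P))]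
  congr 1
  ext l
  rw [mem_lowD, mem_filter, mem_sdiff]
  rw [(hG.2 i j hij).2 l]
  simp only [mem_univ, true_and, Function.comp_apply]
  exact and_comm

/-- **Deletion**: the bisectors of the rest -/
theorem bis_rest {P' : Fin #P → ℝ × ℝ} (hG : Good P ε P')
    (hε : ∀ x ∈ P, ∀ y ∈ P, (shr ε x).1 = (shr ε y).1 → x = y) (D : Finset (Fin #P)) :
    {L | IsBisector (rest P D) L}.ncard ≤ cnt P' ((#P - #D) / 2 - 1) D := by
  have h := bis_le (P := rest P D) (ε := ε)
    (fun x hx y hy hxy => hε x (rest_sub D hx) y (rest_sub D hy) hxy)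
  rw [card_rest] at h
  exact h.trans (kes_le hG D _)

open scoped Classical in
/-- a line through two points of `P` such that the numbers of points on its two sides differ by at
most `m` -/
def NearBisector (P : Finset (ℝ × ℝ)) (m : ℕ) (L : Set (ℝ × ℝ)) : Prop :=
  ∃ a b c : ℝ, (a ≠ 0 ∨ b ≠ 0) ∧ L = Line a b c ∧
    (∃ p ∈ P, ∃ q ∈ P, p ≠ q ∧ p ∈ L ∧ q ∈ L) ∧
    (P.filter (fun p => a * p.1 + b * p.2 < c)).card ≤
      (P.filter (fun p => c < a * p.1 + b * p.2)).card + m ∧
    (P.filter (fun p => c < a * p.1 + b * p.2)).card ≤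
      (P.filter (fun p => a * p.1 + b * p.2 < c)).card + m

theorem line_cr {a b c : ℝ} (hab : a ≠ 0 ∨ b ≠ 0) {p q : ℝ × ℝ} (hpq : p ≠ q)
    (hpL : p ∈ Line a b c) (hqL : q ∈ Line a b c) :
    Line a b c = {x | Pool.Agent.W296.HL.cr p q x = 0} := by
  simp only [Line, Set.mem_ofPred_eq] at hpL hqL
  set d1 := q.1 - p.1 with hd1
  set d2 := q.2 - p.2 with hd2
  have hd : a * d1 + b * d2 = 0 := by rw [hd1, hd2]; linarith
  have hN : 0 < d1 ^ 2 + d2 ^ 2 := by
    by_contra h
    have h3 : d1 = 0 := by nlinarith [sq_nonneg d1, sq_nonneg d2]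
    have h4 : d2 = 0 := by nlinarith [sq_nonneg d1, sq_nonneg d2]
    apply hpq
    exact Prod.ext (by linarith) (by linarith)
  set lam := (b * d1 - a * d2) / (d1 ^ 2 + d2 ^ 2) with hlam
  have hl : lam * (d1 ^ 2 + d2 ^ 2) = b * d1 - a * d2 := by rw [hlam]; field_simp
  have hb : b = lam * d1 := by
    have : (b - lam * d1) * (d1 ^ 2 + d2 ^ 2) = 0 := by
      linear_combination (-d1) * hl + d2 * hd
    have := (mul_eq_zero.mp this).resolve_right hN.ne'
    linarith
  have ha : a = - (lam * d2) := by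
    have : (a + lam * d2) * (d1 ^ 2 + d2 ^ 2) = 0 := by
      linear_combination d2 * hl + d1 * hd
    have := (mul_eq_zero.mp this).resolve_right hN.ne'
    linarith
  have hlam0 : lam ≠ 0 := by
    intro h0
    rw [h0] at ha hb
    rcases hab with h | h
    · apply h; rw [ha]; ring
    · apply h; rw [hb]; ring
  have hkey : ∀ x : ℝ × ℝ, a * x.1 + b * x.2 - c = lam * Pool.Agent.W296.HL.cr p q x := by
    intro x
    have : c = a * p.1 + b * p.2 := hpL.symm
    rw [this, ha, hb]
    unfold Pool.Agent.W296.HL.cr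
    rw [← hd1, ← hd2]; ring
  ext x
  simp only [Line, Set.mem_ofPred_eq]
  have := hkey x
  constructor
  · intro h
    have h3 : lam * Pool.Agent.W296.HL.cr p q x = 0 := by rw [← this]; linarith
    exact (mul_eq_zero.mp h3).resolve_left hlam0
  · intro h
    rw [h, mul_zero] at this
    linarith

theorem near_finite (P : Finset (ℝ × ℝ)) (m : ℕ) : {L | NearBisector P m L}.Finite := by
  classical
  refine ((P ×ˢ P).finite_toSet.image (fun z => {x | Pool.Agent.W296.HL.cr z.1 z.2 x = 0})).subset ?_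
  rintro L ⟨a, b, c, hab, rfl, ⟨p, hp, q, hq, hpq, hpL, hqL⟩, -, -⟩
  exact ⟨(p, q), mem_coe.mpr (mem_product.mpr ⟨hp, hq⟩), (line_cr hab hpq hpL hqL).symm⟩

/-- the line through two points -/
theorem cr_line (p q : ℝ × ℝ) : {x : ℝ × ℝ | Pool.Agent.W296.HL.cr p q x = 0} =
    Line (-(q.2 - p.2)) (q.1 - p.1) (-(q.2 - p.2) * p.1 + (q.1 - p.1) * p.2) := by
  ext x
  simp only [Line, Set.mem_ofPred_eq]
  unfold Pool.Agent.W296.HL.cr
  constructor <;> intro h <;> linarith

open scoped Classical in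
/-- **Windows of levels and almost bisectors** -/
theorem near_ge (hP : Gen P) {P' : Fin #P → ℝ × ℝ} (hG : Good P ε P')
    (hε : ∀ x ∈ P, ∀ y ∈ P, (shr ε x).1 = (shr ε y).1 → x = y) (W : Finset ℕ) (m : ℕ)
    (hW : ∀ k ∈ W, #P ≤ 2 * k + 2 + m ∧ 2 * k + 2 ≤ #P + m) :
    #(EW P' W) ≤ {L | NearBisector P m L}.ncard := by
  rw [Set.ncard_eq_toFinset_card _ (near_finite P m)]
  apply card_le_card_of_injOn (fun q : Fin #P × Fin #P =>
    {x | Pool.Agent.W296.HL.cr (v0 P q.2) (v0 P q.1) x = 0})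
  · rintro ⟨i, j⟩ hq
    unfold EW at hq
    rw [mem_coe, mem_filter, mem_T] at hq
    obtain ⟨hT, hk⟩ := hq
    have hij := good_lt hG hε hT
    rw [mem_coe, Set.Finite.mem_toFinset, Set.mem_ofPred_eq]
    have hne : i ≠ j := fun h => by rw [h] at hij; exact lt_irrefl _ hij
    have hne0 : v0 P j ≠ v0 P i := fun h => hne (v0_inj P h).symm
    set p := v0 P j with hp
    set q := v0 P i with hq
    have hlow : lev P' (i, j) = #{x ∈ P | Pool.Agent.W296.HL.cr p q x < 0} := by
      rw [lev_eq]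
      unfold lowSet
      have e1 : (univ.filter (fun l => P' l ∈ low (P' i) (P' j))) =
          univ.filter (fun l => Pool.Agent.W296.HL.cr p q (v0 P l) < 0) := by
        ext l
        rw [mem_filter, mem_filter, (hG.2 i j hij).2 l, below_iff hij, cr_shr]
      have e2 : ({x ∈ P | Pool.Agent.W296.HL.cr p q x < 0} : Finset (ℝ × ℝ)) =
          (univ.filter (fun l => Pool.Agent.W296.HL.cr p q (v0 P l) < 0)).image (v0 P) := by
        ext x
        rw [mem_filter, mem_image]
        constructor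
        · rintro ⟨hx, hx2⟩
          obtain ⟨l, rfl⟩ := v0_surj P hx
          exact ⟨l, mem_filter.mpr ⟨mem_univ _, hx2⟩, rfl⟩
        · rintro ⟨l, hl, rfl⟩
          exact ⟨v0_mem P l, (mem_filter.mp hl).2⟩
      rw [e2, card_image_of_injective _ (v0_inj P)]
      exact congrArg card e1
    have hup : #{x ∈ P | Pool.Agent.W296.HL.cr p q x < 0} +
        #{x ∈ P | 0 < Pool.Agent.W296.HL.cr p q x} + 2 = #P := by
      have h1 := card_filter_add_card_filter_not (s := P)
        (fun x => Pool.Agent.W296.HL.cr p q x < 0)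
      have h2 := card_filter_add_card_filter_not
        (s := P.filter (fun x => ¬ Pool.Agent.W296.HL.cr p q x < 0))
        (fun x => 0 < Pool.Agent.W296.HL.cr p q x)
      have h3 : (P.filter (fun x => ¬ Pool.Agent.W296.HL.cr p q x < 0)).filter
          (fun x => 0 < Pool.Agent.W296.HL.cr p q x) =
          P.filter (fun x => 0 < Pool.Agent.W296.HL.cr p q x) := by
        rw [filter_filter]
        apply filter_congr
        intro x _
        exact ⟨fun h => h.2, fun h => ⟨not_lt.mpr h.le, h⟩⟩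
      have h4 : (P.filter (fun x => ¬ Pool.Agent.W296.HL.cr p q x < 0)).filter
          (fun x => ¬ 0 < Pool.Agent.W296.HL.cr p q x) = {p, q} := by
        ext x
        rw [mem_filter, mem_filter, mem_insert, mem_singleton]
        constructor
        · rintro ⟨⟨h5, h6⟩, h7⟩
          by_contra hcon
          push Not at hcon
          exact hP p (v0_mem P j) q (v0_mem P i) x h5 hne0 (Ne.symm hcon.1) (Ne.symm hcon.2)
            (le_antisymm (not_lt.mp h7) (not_lt.mp h6))
        · rintro (rfl | rfl)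
          · have h0 : Pool.Agent.W296.HL.cr p q p = 0 := by
              unfold Pool.Agent.W296.HL.cr; ring
            exact ⟨⟨v0_mem P j, by rw [h0]; exact lt_irrefl _⟩, by rw [h0]; exact lt_irrefl _⟩
          · have h0 : Pool.Agent.W296.HL.cr p q q = 0 := by
              unfold Pool.Agent.W296.HL.cr; ring
            exact ⟨⟨v0_mem P i, by rw [h0]; exact lt_irrefl _⟩, by rw [h0]; exact lt_irrefl _⟩
      rw [h3, h4, card_pair hne0] at h2
      omega
    have hk' := hW _ hk
    rw [hlow] at hk'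
    refine ⟨_, _, _, ?_, cr_line p q, ⟨p, v0_mem P j, q, v0_mem P i, hne0, ?_, ?_⟩, ?_, ?_⟩
    · by_contra hcon
      push Not at hcon
      apply hne0
      exact Prod.ext (by linarith [hcon.2]) (by linarith [hcon.1])
    · rw [Set.mem_ofPred_eq]; unfold Pool.Agent.W296.HL.cr; ring
    · rw [Set.mem_ofPred_eq]; unfold Pool.Agent.W296.HL.cr; ring
    all_goals
      have g1 : (P.filter (fun x : ℝ × ℝ => -(q.2 - p.2) * x.1 + (q.1 - p.1) * x.2 <
          -(q.2 - p.2) * p.1 + (q.1 - p.1) * p.2)) =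
          P.filter (fun x => Pool.Agent.W296.HL.cr p q x < 0) := by
        apply filter_congr
        intro x _
        unfold Pool.Agent.W296.HL.cr
        constructor <;> intro h <;> linarith
      have g2 : (P.filter (fun x : ℝ × ℝ => -(q.2 - p.2) * p.1 + (q.1 - p.1) * p.2 <
          -(q.2 - p.2) * x.1 + (q.1 - p.1) * x.2)) =
          P.filter (fun x => 0 < Pool.Agent.W296.HL.cr p q x) := by
        apply filter_congr
        intro x _
        unfold Pool.Agent.W296.HL.cr
        constructor <;> intro h <;> linarith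
      rw [g1, g2]
      omega
  · rintro ⟨i, j⟩ hq ⟨i', j'⟩ hq' h
    unfold EW at hq hq'
    rw [mem_coe, mem_filter, mem_T] at hq hq'
    have hij := good_lt hG hε hq.1
    have hij' := good_lt hG hε hq'.1
    dsimp only at h hij hij'
    have hne : j ≠ i := fun h => by rw [h] at hij; exact lt_irrefl _ hij
    have self1 : ∀ p q : ℝ × ℝ, Pool.Agent.W296.HL.cr p q p = 0 := fun p q => by
      unfold Pool.Agent.W296.HL.cr; ring
    have self2 : ∀ p q : ℝ × ℝ, Pool.Agent.W296.HL.cr p q q = 0 := fun p q => by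
      unfold Pool.Agent.W296.HL.cr; ring
    have key : ∀ l, Pool.Agent.W296.HL.cr (v0 P j) (v0 P i) (v0 P l) = 0 → l = j ∨ l = i := by
      intro l hl
      by_contra hcon
      push Not at hcon
      exact hP _ (v0_mem P j) _ (v0_mem P i) _ (v0_mem P l) (fun h => hne (v0_inj P h))
        (fun h => hcon.1 (v0_inj P h).symm) (fun h => hcon.2 (v0_inj P h).symm) hl
    have k1 : v0 P i' ∈ {x | Pool.Agent.W296.HL.cr (v0 P j) (v0 P i) x = 0} := by
      rw [h]; exact self2 _ _
    have k2 : v0 P j' ∈ {x | Pool.Agent.W296.HL.cr (v0 P j) (v0 P i) x = 0} := by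
      rw [h]; exact self1 _ _
    rcases key _ k1 with r1 | r1 <;> rcases key _ k2 with r2 | r2
    · rw [r1, r2] at hij'; exact absurd hij' (lt_irrefl _)
    · rw [r1, r2] at hij'; exact absurd (hij.trans hij') (lt_irrefl _)
    · rw [r1, r2]
    · rw [r1, r2] at hij'; exact absurd hij' (lt_irrefl _)

end Pool.Agent.Run7.h739.HD
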